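import Pool.Agent.V11113.PS.Dich

/-!
# Periodic shadowing of bilateral weighted shifts on abstract sequence spaces
-/

set_option autoImplicit false

namespace Pool.Agent.V11113.PS

open Filter Topology

/-- Abstract spaces of two sided sequences. -/
structure ZSpace (𝕜 X : Type) [RCLike 𝕜] [NormedAddCommGroup X] [NormedSpace 𝕜 X] where
  co : X →ₗ[𝕜] (ℤ → 𝕜)
  inj : Function.Injective co
  eval : ∀ x n, ‖co x n‖ ≤ ‖x‖
  dom : ∀ (x : X) (j : ℤ) (C : ℝ) (f : ℤ → 𝕜), 0 ≤ C → (∀ n, ‖f n‖ ≤ C * ‖co x (n + j)‖) →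
    ∃ y : X, co y = f ∧ ‖y‖ ≤ C * ‖x‖
  e : ℤ → X
  co_e : ∀ n, co (e n) = Pi.single n 1
  norm_e : ∀ n, ‖e n‖ ≤ 1

section

variable {𝕜 : Type} [RCLike 𝕜] {X : Type} [NormedAddCommGroup X] [NormedSpace 𝕜 X]

/-- The periodic shadowing property. -/
def PSP (T : X ≃L[𝕜] X) : Prop :=
  ∀ ε : ℝ, 0 < ε → ∃ δ : ℝ, 0 < δ ∧ ∀ x : ℤ → X,
    (∃ q : ℕ, 0 < q ∧ ∀ j : ℤ, x (j + q) = x j) → (∀ j : ℤ, ‖T (x j) - x (j + 1)‖ < δ) →
    ∃ y : X, (∃ N : ℕ, 0 < N ∧ (T ^ N) y = y) ∧ ∀ j : ℤ, ‖x j - (T ^ j) y‖ < ε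

variable (V : ZSpace 𝕜 X)

lemma exists_of_summable [CompleteSpace X] (f : ℤ → 𝕜) (hf : Summable (fun n => ‖f n‖)) :
    ∃ y, V.co y = f ∧ ‖y‖ ≤ ∑' n, ‖f n‖ := by
  have h0 : ∀ n, ‖f n • V.e n‖ ≤ ‖f n‖ := by
    intro n
    rw [norm_smul]
    have := V.norm_e n
    nlinarith [norm_nonneg (f n)]
  have h1 : Summable (fun n => f n • V.e n) := Summable.of_norm_bounded hf h0
  refine ⟨∑' n, f n • V.e n, ?_, tsum_of_norm_bounded hf.hasSum h0⟩
  funext m
  let φ : X →L[𝕜] 𝕜 := LinearMap.mkContinuous ((LinearMap.proj m).comp V.co) 1 (fun x => by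
    rw [one_mul]
    exact V.eval x m)
  have h2 : ∀ x, φ x = V.co x m := fun x => rfl
  rw [← h2, φ.map_tsum h1, tsum_eq_single m]
  · rw [map_smul, h2, V.co_e]
    simp
  · intro n hn
    rw [map_smul, h2, V.co_e, Pi.single_eq_of_ne (Ne.symm hn), smul_zero]

/-- Existence of the products. -/
lemma exists_c (w : ℤ → 𝕜) (hw : ∀ n, w n ≠ 0) :
    ∃ c : ℤ → 𝕜, c 0 = 1 ∧ (∀ n, c n ≠ 0) ∧ ∀ n, c (n + 1) = w (n + 1) * c n := by
  refine ⟨fun n => (∏ i ∈ Finset.Ioc 0 n, w i) * (∏ i ∈ Finset.Ioc n 0, w i)⁻¹, by simp, ?_, ?_⟩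
  · intro n
    apply mul_ne_zero
    · exact Finset.prod_ne_zero_iff.2 fun i _ => hw i
    · exact inv_ne_zero (Finset.prod_ne_zero_iff.2 fun i _ => hw i)
  · intro n
    simp only
    rcases le_or_gt 0 n with h | h
    · have h1 : Finset.Ioc 0 (n + 1) = insert (n + 1) (Finset.Ioc 0 n) := by
        ext i
        simp only [Finset.mem_insert, Finset.mem_Ioc]
        omega
      have h2 : Finset.Ioc (n + 1) 0 = ∅ := Finset.Ioc_eq_empty (by omega)
      have h3 : Finset.Ioc n 0 = ∅ := Finset.Ioc_eq_empty (by omega)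
      rw [h1, h2, h3, Finset.prod_insert (by simp)]
      simp
    · have h1 : Finset.Ioc n 0 = insert (n + 1) (Finset.Ioc (n + 1) 0) := by
        ext i
        simp only [Finset.mem_insert, Finset.mem_Ioc]
        omega
      have h2 : Finset.Ioc 0 (n + 1) = ∅ := Finset.Ioc_eq_empty (by omega)
      have h3 : Finset.Ioc 0 n = ∅ := Finset.Ioc_eq_empty (by omega)
      rw [h1, h2, h3, Finset.prod_insert (by simp), mul_inv]
      have := hw (n + 1)
      simp only [Finset.prod_empty, one_mul]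
      rw [← mul_assoc, mul_inv_cancel₀ this, one_mul]

/-- the setting -/
structure Setting (V : ZSpace 𝕜 X) where
  w : ℤ → 𝕜
  W : ℝ
  m : ℝ
  hW : ∀ n, ‖w n‖ ≤ W
  hm : 0 < m
  hmw : ∀ n, m ≤ ‖w n‖
  c : ℤ → 𝕜
  c0 : c 0 = 1
  hc : ∀ n, c n ≠ 0
  cs : ∀ n, c (n + 1) = w (n + 1) * c n
  T : X ≃L[𝕜] X
  hT : ∀ x n, V.co (T x) n = w (n + 1) * V.co x (n + 1)

/-- Existence of the shift. -/
lemma exists_setting (w : ℤ → 𝕜) (hW : ∃ W : ℝ, ∀ n, ‖w n‖ ≤ W)
    (hm : ∃ m : ℝ, 0 < m ∧ ∀ n, m ≤ ‖w n‖) : ∃ D : Setting V, D.w = w := by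
  obtain ⟨W, hW⟩ := hW
  obtain ⟨m, hm, hmw⟩ := hm
  have hw : ∀ n, w n ≠ 0 := fun n h => by
    have := hmw n
    rw [h, norm_zero] at this
    linarith
  obtain ⟨c, c0, hc, cs⟩ := exists_c w hw
  have hW0 : 0 ≤ W := (norm_nonneg _).trans (hW 0)
  have hex : ∀ x : X, ∃ y : X, V.co y = (fun n => w (n + 1) * V.co x (n + 1)) ∧
      ‖y‖ ≤ W * ‖x‖ := fun x => V.dom x 1 W _ hW0 (fun n => by
    rw [norm_mul]
    gcongr
    exact hW _)
  have hex' : ∀ x : X, ∃ y : X, V.co y = (fun n => (w n)⁻¹ * V.co x (n + -1)) ∧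
      ‖y‖ ≤ m⁻¹ * ‖x‖ := fun x => V.dom x (-1) m⁻¹ _ (by positivity) (fun n => by
    rw [norm_mul, norm_inv]
    gcongr
    exact hmw _)
  choose F hF1 hF2 using hex
  choose G hG1 hG2 using hex'
  let T : X →L[𝕜] X := LinearMap.mkContinuous
    { toFun := F
      map_add' := fun x y => by
        apply V.inj
        rw [map_add, hF1, hF1, hF1, map_add]
        funext n
        simp [mul_add]
      map_smul' := fun c x => by
        apply V.inj
        rw [RingHom.id_apply, map_smul, hF1, hF1, map_smul]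
        funext n
        simp
        ring } W hF2
  let T' : X →L[𝕜] X := LinearMap.mkContinuous
    { toFun := G
      map_add' := fun x y => by
        apply V.inj
        rw [map_add, hG1, hG1, hG1, map_add]
        funext n
        simp [mul_add]
      map_smul' := fun c x => by
        apply V.inj
        rw [RingHom.id_apply, map_smul, hG1, hG1, map_smul]
        funext n
        simp
        ring } m⁻¹ hG2
  have hT : ∀ x n, V.co (T x) n = w (n + 1) * V.co x (n + 1) := fun x n => congrFun (hF1 x) n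
  have hT' : ∀ x n, V.co (T' x) n = (w n)⁻¹ * V.co x (n + -1) := fun x n => congrFun (hG1 x) n
  have h1 : Function.LeftInverse T' T := fun x => by
    apply V.inj
    funext n
    rw [hT', hT]
    have : n + -1 + 1 = n := by ring
    rw [this, ← mul_assoc, inv_mul_cancel₀ (hw n), one_mul]
  have h2 : Function.RightInverse T' T := fun x => by
    apply V.inj
    funext n
    rw [hT, hT']
    have : n + 1 + -1 = n := by ring
    rw [this, ← mul_assoc, mul_inv_cancel₀ (hw _), one_mul]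
  exact ⟨⟨w, W, m, hW, hm, hmw, c, c0, hc, cs, ContinuousLinearEquiv.equivOfInverse T T' h1 h2,
    hT⟩, rfl⟩

namespace Setting

variable {V} (D : Setting V)

/-- norms of the products -/
noncomputable def b (n : ℤ) : ℝ := ‖D.c n‖

lemma b_pos (n : ℤ) : 0 < D.b n := norm_pos_iff.2 (D.hc n)

lemma b0 : D.b 0 = 1 := by unfold b; rw [D.c0, norm_one]

lemma b_succ_le (n : ℤ) : D.b (n + 1) ≤ D.W * D.b n := by
  unfold b
  rw [D.cs, norm_mul]
  gcongr
  exact D.hW _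

lemma W_pos : 0 < D.W := lt_of_lt_of_le D.hm ((D.hmw 0).trans (D.hW 0))

/-- unweighted coordinates -/
noncomputable def Y (x : X) (n : ℤ) : 𝕜 := D.c n * V.co x n

lemma Y_inj {x y : X} (h : ∀ n, D.Y x n = D.Y y n) : x = y := by
  apply V.inj
  funext n
  exact mul_left_cancel₀ (D.hc n) (h n)

lemma Y_add (x y : X) (n : ℤ) : D.Y (x + y) n = D.Y x n + D.Y y n := by
  unfold Y
  rw [map_add, Pi.add_apply, mul_add]

lemma Y_sub (x y : X) (n : ℤ) : D.Y (x - y) n = D.Y x n - D.Y y n := by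
  unfold Y
  rw [map_sub, Pi.sub_apply, mul_sub]

lemma Y_sum {ι : Type} (s : Finset ι) (f : ι → X) (n : ℤ) :
    D.Y (∑ i ∈ s, f i) n = ∑ i ∈ s, D.Y (f i) n := by
  unfold Y
  rw [map_sum, Finset.sum_apply, Finset.mul_sum]

lemma Y_T (x : X) (n : ℤ) : D.Y (D.T x) n = D.Y x (n + 1) := by
  unfold Y
  rw [D.hT, D.cs]
  ring

lemma Y_Tsymm (x : X) (n : ℤ) : D.Y (D.T.symm x) n = D.Y x (n - 1) := by
  have h := D.Y_T (D.T.symm x) (n - 1)
  rw [D.T.apply_symm_apply, sub_add_cancel] at h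
  exact h.symm

lemma Y_zpow (j : ℤ) (x : X) (n : ℤ) : D.Y ((D.T ^ j) x) n = D.Y x (n + j) := by
  induction j using Int.induction_on generalizing x n with
  | zero =>
    rw [zpow_zero, add_zero]
    rfl
  | succ i ih =>
    rw [zpow_add_one]
    change D.Y ((D.T ^ (i : ℤ)) (D.T x)) n = _
    rw [ih, D.Y_T]
    congr 1
    ring
  | pred i ih =>
    rw [zpow_sub_one]
    change D.Y ((D.T ^ (-(i : ℤ))) (D.T.symm x)) n = _
    rw [ih, D.Y_Tsymm]
    congr 1
    ring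

lemma norm_Y_le (x : X) (n : ℤ) : ‖D.Y x n‖ ≤ D.b n * ‖x‖ := by
  unfold Y
  rw [norm_mul]
  have := V.eval x n
  have h2 := (D.b_pos n).le
  unfold b at *
  gcongr

/-- truncated shifts -/
lemma exists_sh (E : Set ℤ) (s : ℤ) (K : ℝ) (hK : 0 ≤ K) (h : ∀ n ∈ E, D.b (n + s) ≤ K * D.b n)
    (x : X) : ∃ y : X, (∀ n ∈ E, D.Y y n = D.Y x (n + s)) ∧ (∀ n, n ∉ E → D.Y y n = 0) ∧
      ‖y‖ ≤ K * ‖x‖ := by
  classical
  obtain ⟨y, hy1, hy2⟩ := V.dom x s K (fun n => if n ∈ E then (D.c n)⁻¹ * D.Y x (n + s) else 0) hK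
    (by
      intro n
      by_cases hn : n ∈ E
      · simp only [if_pos hn]
        unfold Y
        rw [norm_mul, norm_mul, norm_inv]
        have h1 := h n hn
        have h2 := D.b_pos n
        unfold b at h1 h2
        rw [inv_mul_le_iff₀ h2]
        calc ‖D.c (n + s)‖ * ‖V.co x (n + s)‖ ≤ (K * ‖D.c n‖) * ‖V.co x (n + s)‖ := by gcongr
          _ = _ := by ring
      · simp only [if_neg hn, norm_zero]
        positivity)
  refine ⟨y, ?_, ?_, hy2⟩
  · intro n hn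
    unfold Y
    rw [hy1]
    simp only [if_pos hn]
    rw [← mul_assoc, mul_inv_cancel₀ (D.hc n), one_mul]
    rfl
  · intro n hn
    unfold Y
    rw [hy1]
    simp only [if_neg hn, mul_zero]

/-- a bounded solution -/
structure Sol (u z : ℤ → X) (M δ : ℝ) : Prop where
  bdd : ∀ j, ‖u j‖ ≤ M
  zb : ∀ j, ‖z j‖ ≤ δ
  rel : ∀ j n, D.Y (u (j + 1)) n = D.Y (u j) (n + 1) + D.Y (z j) n

variable {D}

lemma Sol.fwd {u z : ℤ → X} {M δ : ℝ} (h : D.Sol u z M δ) (N : ℕ) (j n : ℤ) :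
    D.Y (u j) n = D.Y (u (j - N)) (n + N) + ∑ s ∈ Finset.range N, D.Y (z (j - 1 - s)) (n + s) := by
  induction N with
  | zero => simp
  | succ N ih =>
    rw [ih, Finset.sum_range_succ]
    have h1 := h.rel (j - 1 - N) (n + N)
    have e1 : j - 1 - (N : ℤ) + 1 = j - N := by ring
    rw [e1] at h1
    rw [h1]
    have e2 : j - ((N + 1 : ℕ) : ℤ) = j - 1 - N := by push_cast; ring
    have e3 : n + ((N + 1 : ℕ) : ℤ) = n + N + 1 := by push_cast; ring
    rw [e2, e3]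
    ring

lemma Sol.bwd {u z : ℤ → X} {M δ : ℝ} (h : D.Sol u z M δ) (N : ℕ) (j n : ℤ) :
    D.Y (u j) n = D.Y (u (j + N)) (n - N) - ∑ s ∈ Finset.range N, D.Y (z (j + s)) (n - 1 - s) := by
  induction N with
  | zero => simp
  | succ N ih =>
    rw [ih, Finset.sum_range_succ]
    have h1 := h.rel (j + N) (n - 1 - N)
    have e1 : n - 1 - (N : ℤ) + 1 = n - N := by ring
    rw [e1] at h1
    have e2 : j + ((N + 1 : ℕ) : ℤ) = j + N + 1 := by push_cast; ring
    have e3 : n - ((N + 1 : ℕ) : ℤ) = n - 1 - N := by push_cast; ring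
    rw [e2, e3, h1]
    ring

lemma limit_bound {C r M F x : ℝ} (hr0 : 0 < r) (hr1 : r < 1)
    (h : ∀ N : ℕ, x ≤ C * r ^ N * M + F) : x ≤ F := by
  have h1 : Tendsto (fun N : ℕ => C * r ^ N * M + F) atTop (𝓝 (C * 0 * M + F)) :=
    (((tendsto_pow_atTop_nhds_zero_of_lt_one hr0.le hr1).const_mul C).mul_const M).add_const F
  rw [mul_zero, zero_mul, zero_add] at h1
  exact ge_of_tendsto' h1 h

lemma geom_bound {C r δ : ℝ} (hC : 0 ≤ C) (hr0 : 0 < r) (hr1 : r < 1) (hδ : 0 ≤ δ) (N : ℕ) :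
    ∑ s ∈ Finset.range N, C * r ^ s * δ ≤ C * δ / (1 - r) := by
  have h1 : ∑ s ∈ Finset.range N, r ^ s ≤ (1 - r)⁻¹ := by
    rw [← tsum_geometric_of_lt_one hr0.le hr1]
    exact (summable_geometric_of_lt_one hr0.le hr1).sum_le_tsum _ (fun i _ => by positivity)
  calc ∑ s ∈ Finset.range N, C * r ^ s * δ = C * δ * ∑ s ∈ Finset.range N, r ^ s := by
        rw [Finset.mul_sum]
        refine Finset.sum_congr rfl fun i _ => by ring
    _ ≤ C * δ * (1 - r)⁻¹ := by gcongr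
    _ = _ := by rw [div_eq_mul_inv]

/-- decay on the right -/
lemma Sol.right_dec {u z : ℤ → X} {M δ C r : ℝ} (h : D.Sol u z M δ) (hC : 0 < C) (hr0 : 0 < r)
    (hr1 : r < 1) (hb : ∀ (n : ℤ) (s : ℕ), 0 ≤ n → D.b (n + s) ≤ C * r ^ s * D.b n) (j : ℤ) :
    ∃ R : X, (∀ n, 0 ≤ n → D.Y R n = D.Y (u j) n) ∧ (∀ n, n < 0 → D.Y R n = 0) ∧
      ‖R‖ ≤ C * δ / (1 - r) := by
  have hδ : 0 ≤ δ := (norm_nonneg _).trans (h.zb 0)
  obtain ⟨R, hR1, hR2, _⟩ := D.exists_sh {n | 0 ≤ n} 0 1 zero_le_one (fun n _ => by simp) (u j)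
  refine ⟨R, fun n hn => by rw [hR1 n hn, add_zero], fun n hn => hR2 n (by simpa using hn), ?_⟩
  apply limit_bound hr0 hr1 (C := C) (M := M)
  intro N
  obtain ⟨A, hA1, hA2, hA3⟩ := D.exists_sh {n | 0 ≤ n} N (C * r ^ N) (by positivity)
    (fun n hn => hb n N hn) (u (j - N))
  have hex := fun s : ℕ => D.exists_sh {n | 0 ≤ n} s (C * r ^ s) (by positivity)
    (fun n hn => hb n s hn) (z (j - 1 - s))
  choose F hF1 hF2 hF3 using hex
  have hRA : R = A + ∑ s ∈ Finset.range N, F s := by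
    apply D.Y_inj
    intro n
    rw [D.Y_add, D.Y_sum]
    by_cases hn : 0 ≤ n
    · rw [hR1 n hn, add_zero, h.fwd N j n, hA1 n hn]
      congr 1
      exact Finset.sum_congr rfl fun s _ => (hF1 s n hn).symm
    · rw [hR2 n hn, hA2 n hn, zero_add]
      exact (Finset.sum_eq_zero fun s _ => hF2 s n hn).symm
  rw [hRA]
  refine (norm_add_le _ _).trans (add_le_add ?_ ?_)
  · exact hA3.trans (by have := h.bdd (j - N); gcongr)
  · refine (norm_sum_le _ _).trans ((Finset.sum_le_sum fun s _ => ?_).trans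
      (geom_bound hC.le hr0 hr1 hδ N))
    exact (hF3 s).trans (by have := h.zb (j - 1 - s); gcongr)

/-- decay on the left -/
lemma Sol.left_dec {u z : ℤ → X} {M δ C r : ℝ} (h : D.Sol u z M δ) (hC : 0 < C) (hr0 : 0 < r)
    (hr1 : r < 1) (hb : ∀ (n : ℤ) (s : ℕ), 0 ≤ n → D.b (-(n + s)) ≤ C * r ^ s * D.b (-n)) (j : ℤ) :
    ∃ R : X, (∀ n, n ≤ 0 → D.Y R n = D.Y (u j) n) ∧ (∀ n, 0 < n → D.Y R n = 0) ∧
      ‖R‖ ≤ C * δ / (1 - r) := by
  have hδ : 0 ≤ δ := (norm_nonneg _).trans (h.zb 0)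
  have hb' : ∀ (n : ℤ) (s : ℕ), n ≤ 0 → D.b (n - s) ≤ C * r ^ s * D.b n := by
    intro n s hn
    have := hb (-n) s (by omega)
    rwa [neg_neg, show -(-n + (s : ℤ)) = n - s by ring] at this
  obtain ⟨R, hR1, hR2, _⟩ := D.exists_sh {n | n ≤ 0} 0 1 zero_le_one (fun n _ => by simp) (u j)
  refine ⟨R, fun n hn => by rw [hR1 n hn, add_zero], fun n hn => hR2 n (by simpa using hn), ?_⟩
  apply limit_bound hr0 hr1 (C := C) (M := M)
  intro N
  obtain ⟨A, hA1, hA2, hA3⟩ := D.exists_sh {n | n ≤ 0} (-N) (C * r ^ N) (by positivity)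
    (fun n hn => hb' n N hn) (u (j + N))
  have hex := fun s : ℕ => D.exists_sh {n | n ≤ 0} (-1 - s) (C * r ^ s) (by positivity)
    (fun n hn => by
      have h1 := hb' n (s + 1) hn
      have h2 : n + (-1 - (s : ℤ)) = n - ((s + 1 : ℕ) : ℤ) := by push_cast; ring
      rw [h2]
      refine h1.trans ?_
      have := D.b_pos n
      have h3 : r ^ (s + 1) ≤ r ^ s := pow_le_pow_of_le_one hr0.le hr1.le (by omega)
      gcongr) (z (j + s))
  choose F hF1 hF2 hF3 using hex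
  have hRA : R = A - ∑ s ∈ Finset.range N, F s := by
    apply D.Y_inj
    intro n
    rw [D.Y_sub, D.Y_sum]
    by_cases hn : n ≤ 0
    · rw [hR1 n hn, add_zero, h.bwd N j n, hA1 n hn]
      congr 1
      refine Finset.sum_congr rfl fun s _ => ?_
      rw [hF1 s n hn]
      congr 1
      ring
    · rw [hR2 n hn, hA2 n hn, zero_sub, Finset.sum_eq_zero fun s _ => hF2 s n hn, neg_zero]
  rw [hRA]
  refine (norm_sub_le _ _).trans (add_le_add ?_ ?_)
  · exact hA3.trans (by have := h.bdd (j + N); gcongr)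
  · refine (norm_sum_le _ _).trans ((Finset.sum_le_sum fun s _ => ?_).trans
      (geom_bound hC.le hr0 hr1 hδ N))
    exact (hF3 s).trans (by have := h.zb (j + s); gcongr)

end Setting

end

end Pool.Agent.V11113.PS
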