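import Mathlib

/-!
# Dichotomy on half lines
-/

set_option autoImplicit false

namespace Pool.Agent.V11113.PS

open Filter Topology Finset

/-- partial sums -/
noncomputable def S (b : ℤ → ℝ) (k m : ℤ) : ℝ := ∑ i ∈ Ico k m, b i

lemma S_nonneg {b : ℤ → ℝ} (hb : ∀ n, 0 < b n) (k m : ℤ) : 0 ≤ S b k m :=
  sum_nonneg fun i _ => (hb i).le

lemma S_succ {b : ℤ → ℝ} {k m : ℤ} (h : k ≤ m) : S b k (m + 1) = S b k m + b m := by
  unfold S
  have : Ico k (m + 1) = insert m (Ico k m) := by
    ext i
    simp only [mem_insert, mem_Ico]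
    omega
  rw [this, sum_insert (by simp)]
  ring

lemma S_pred {b : ℤ → ℝ} {k m : ℤ} (h : k < m) : S b k m = b k + S b (k + 1) m := by
  unfold S
  have : Ico k m = insert k (Ico (k + 1) m) := by
    ext i
    simp only [mem_insert, mem_Ico]
    omega
  rw [this, sum_insert (by simp)]

lemma S_empty {b : ℤ → ℝ} {k m : ℤ} (h : m ≤ k) : S b k m = 0 := by
  unfold S
  rw [Ico_eq_empty (by omega), sum_empty]

lemma S_mono {b : ℤ → ℝ} (hb : ∀ n, 0 < b n) {k k' m m' : ℤ} (h : k' ≤ k) (h' : m ≤ m') :
    S b k m ≤ S b k' m' := by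
  unfold S
  apply sum_le_sum_of_subset_of_nonneg
  · intro i
    simp only [mem_Ico]
    omega
  · intro i _ _
    exact (hb i).le

/-- exponential growth from summed growth -/
lemma exp_growth {b : ℤ → ℝ} (hb : ∀ n, 0 < b n) {C : ℝ} (hC : 0 < C)
    (h : ∀ m : ℤ, 0 ≤ m → S b 0 m ≤ C * b m) :
    ∃ C' r : ℝ, 0 < C' ∧ 0 < r ∧ r < 1 ∧ ∀ (n : ℤ) (s : ℕ), 0 ≤ n → b n ≤ C' * r ^ s * b (n + s) := by
  set r : ℝ := C / (C + 1) with hr
  have hr0 : 0 < r := by positivity
  have hr1 : r < 1 := by rw [hr, div_lt_one (by linarith)]; linarith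
  refine ⟨(C + 1) / r, r, by positivity, hr0, hr1, ?_⟩
  have h1 : ∀ m : ℤ, 0 ≤ m → S b 0 m ≤ r * S b 0 (m + 1) := by
    intro m hm
    rw [S_succ hm, hr, div_mul_eq_mul_div, le_div_iff₀ (by linarith)]
    have := h m hm
    linarith
  have h2 : ∀ (s : ℕ) (m : ℤ), 0 ≤ m → S b 0 m ≤ r ^ s * S b 0 (m + s) := by
    intro s
    induction s with
    | zero => intro m _; simp
    | succ s ih =>
      intro m hm
      have h3 := ih m hm
      have h4 := h1 (m + s) (by omega)
      calc S b 0 m ≤ r ^ s * S b 0 (m + s) := h3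
        _ ≤ r ^ s * (r * S b 0 (m + s + 1)) := by gcongr
        _ = r ^ (s + 1) * S b 0 (m + (s + 1 : ℕ)) := by
          push_cast
          rw [pow_succ, add_assoc]
          ring
  intro n s hn
  have h5 : b n ≤ S b 0 (n + 1) := by
    rw [S_succ hn]
    have := S_nonneg hb 0 n
    linarith
  have h6 := h2 s (n + 1) (by omega)
  have h7 : S b 0 (n + 1 + s) ≤ (C + 1) * b (n + s) := by
    have : n + 1 + (s : ℤ) = (n + s) + 1 := by ring
    rw [this, S_succ (by omega)]
    have := h (n + s) (by omega)
    linarith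
  have h8 : (C + 1) / r * r ^ s * b (n + s) = r ^ s * ((C + 1) * b (n + s)) * r⁻¹ := by
    field_simp
  rw [h8]
  have h9 : 1 ≤ r⁻¹ := (one_le_inv₀ hr0).2 hr1.le
  have h10 : b n ≤ r ^ s * ((C + 1) * b (n + s)) := by
    refine h5.trans (h6.trans ?_)
    gcongr
  have h11 : 0 ≤ r ^ s * ((C + 1) * b (n + s)) := by
    have := hb (n + s)
    positivity
  nlinarith

/-- exponential decay from summed decay -/
lemma exp_decay {b : ℤ → ℝ} (hb : ∀ n, 0 < b n) {C : ℝ} (hC : 0 < C)
    (h : ∀ m l : ℤ, 0 ≤ m → m ≤ l → S b m l ≤ C * b m) :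
    ∃ C' r : ℝ, 0 < C' ∧ 0 < r ∧ r < 1 ∧ ∀ (n : ℤ) (s : ℕ), 0 ≤ n → b (n + s) ≤ C' * r ^ s * b n := by
  set r : ℝ := C / (C + 1) with hr
  have hr0 : 0 < r := by positivity
  have hr1 : r < 1 := by rw [hr, div_lt_one (by linarith)]; linarith
  refine ⟨(C + 1), r, by positivity, hr0, hr1, ?_⟩
  -- S (m+1) l ≤ r * S m l
  have h1 : ∀ m l : ℤ, 0 ≤ m → m < l → S b (m + 1) l ≤ r * S b m l := by
    intro m l hm hml
    have h2 := h m l hm hml.le
    have h3 := S_pred (b := b) hml
    rw [hr, div_mul_eq_mul_div, le_div_iff₀ (by linarith)]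
    rw [h3] at h2 ⊢
    have := hb m
    nlinarith
  have h2 : ∀ (s : ℕ) (m l : ℤ), 0 ≤ m → m + s < l → S b (m + s) l ≤ r ^ s * S b m l := by
    intro s
    induction s with
    | zero => intro m l _ _; simp
    | succ s ih =>
      intro m l hm hml
      push_cast at hml
      have h3 := ih m l hm (by omega)
      have h4 := h1 (m + s) l (by omega) (by omega)
      calc S b (m + (s + 1 : ℕ)) l = S b (m + s + 1) l := by push_cast; rw [add_assoc]
        _ ≤ r * S b (m + s) l := h4
        _ ≤ r * (r ^ s * S b m l) := by gcongr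
        _ = r ^ (s + 1) * S b m l := by rw [pow_succ]; ring
  intro n s hn
  have h3 := h2 s n (n + s + 1) hn (by omega)
  rw [S_pred (show n + (s : ℤ) < n + s + 1 by omega), S_empty le_rfl, add_zero] at h3
  have h4 := h n (n + s + 1) hn (by omega)
  calc b (n + s) ≤ r ^ s * S b n (n + s + 1) := h3
    _ ≤ r ^ s * (C * b n) := by gcongr
    _ ≤ r ^ s * ((C + 1) * b n) := by
        have := hb n
        gcongr
        linarith
    _ = (C + 1) * r ^ s * b n := by ring

/-- The star condition. -/
def Star (b : ℤ → ℝ) (K : ℝ) : Prop :=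
  ∀ k m l : ℤ, k ≤ m → m ≤ l → min (S b k m) (S b m l) ≤ K * (b m + min (b k) (b l))

/-- **Dichotomy on the right half line.** -/
theorem dichotomy {b : ℤ → ℝ} (hb : ∀ n, 0 < b n) {K : ℝ} (hK : 0 < K) (h : Star b K) :
    ∃ C r : ℝ, 0 < C ∧ 0 < r ∧ r < 1 ∧
      ((∀ (n : ℤ) (s : ℕ), 0 ≤ n → b n ≤ C * r ^ s * b (n + s)) ∨
        (∀ (n : ℤ) (s : ℕ), 0 ≤ n → b (n + s) ≤ C * r ^ s * b n)) := by
  -- comparison on finite windows
  have hwin : ∀ N : ℕ, ∃ c : ℝ, 0 < c ∧ ∀ m : ℤ, 0 ≤ m → m ≤ N → c ≤ b m := by
    intro N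
    induction N with
    | zero => exact ⟨b 0, hb 0, fun m h1 h2 => by
        have : m = 0 := by push_cast at h2; omega
        rw [this]⟩
    | succ N ih =>
      obtain ⟨c, hc, h1⟩ := ih
      refine ⟨min c (b (N + 1)), lt_min hc (hb _), fun m h2 h3 => ?_⟩
      rcases lt_or_eq_of_le h3 with h4 | h4
      · exact (min_le_left _ _).trans (h1 m h2 (by push_cast at h4; omega))
      · rw [h4]
        push_cast
        exact min_le_right _ _
  by_cases hbdd : ∃ B : ℝ, ∀ l : ℤ, 0 ≤ l → S b 0 l ≤ B
  · -- summable case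
    obtain ⟨B, hB⟩ := hbdd
    -- b l → 0 along naturals
    have hsum : Summable (fun n : ℕ => b n) := by
      apply summable_of_sum_range_le (c := B) (fun n => (hb n).le)
      intro n
      refine le_trans (le_of_eq ?_) (hB n (by omega))
      unfold S
      have : (Ico (0 : ℤ) n) = (range n).image (fun i : ℕ => (i : ℤ)) := by
        ext i
        simp only [mem_Ico, mem_image, mem_range]
        constructor
        · rintro ⟨h1, h2⟩
          exact ⟨i.toNat, by omega, by omega⟩
        · rintro ⟨j, h1, rfl⟩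
          omega
      rw [this, sum_image (by intro x _ y _ hxy; simpa using hxy)]
    have hlim : Tendsto (fun n : ℕ => b n) atTop (𝓝 0) := hsum.tendsto_atTop_zero
    -- key: min (S 0 m) (S m l) ≤ 2 K b m
    have key : ∀ m l : ℤ, 0 ≤ m → m ≤ l → min (S b 0 m) (S b m l) ≤ 2 * K * b m := by
      intro m l hm hml
      have h1 : ∀ᶠ n : ℕ in atTop, b n < b m := hlim.eventually_lt_const (hb m)
      obtain ⟨n, hn1, hn2⟩ := (h1.and (eventually_ge_atTop l.toNat)).exists
      have hn3 : l ≤ n := by omega
      have h2 := h 0 m n hm (hml.trans hn3)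
      have h3 : S b m l ≤ S b m n := S_mono hb le_rfl hn3
      have h4 : min (b 0) (b n) ≤ b m := (min_le_right _ _).trans hn1.le
      calc min (S b 0 m) (S b m l) ≤ min (S b 0 m) (S b m n) := min_le_min le_rfl h3
        _ ≤ K * (b m + min (b 0) (b n)) := h2
        _ ≤ K * (b m + b m) := by gcongr
        _ = _ := by ring
    have hB0 : 0 < B := by
      have := hB 1 (by norm_num)
      have h2 : S b 0 1 = b 0 := by
        have := S_succ (b := b) (show (0 : ℤ) ≤ 0 from le_rfl)
        rw [zero_add] at this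
        rw [this, S_empty le_rfl, zero_add]
      rw [h2] at this
      exact lt_of_lt_of_le (hb 0) this
    -- choose m0 with small tails
    obtain ⟨m0, hm0, hm0'⟩ : ∃ m0 : ℕ, 1 ≤ m0 ∧ ∀ m l : ℤ, (m0 : ℤ) ≤ m → m ≤ l → S b m l ≤ b 0 := by
      set s := ∑' n : ℕ, b n with hs
      have hcau : Tendsto (fun n => ∑ i ∈ range n, b (i : ℕ)) atTop (𝓝 s) :=
        hsum.hasSum.tendsto_sum_nat
      obtain ⟨N, hN⟩ := eventually_atTop.1
        (hcau.eventually_const_lt (show s - b 0 < s by linarith [hb 0]))
      refine ⟨N + 1, by omega, fun m l h1 h2 => ?_⟩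
      have h3 : S b 0 m + S b m l = S b 0 l := by
        unfold S
        rw [← sum_union]
        · congr 1
          ext i
          simp only [mem_union, mem_Ico]
          omega
        · rw [disjoint_left]
          intro i
          simp only [mem_Ico]
          omega
      have h4 : ∀ n : ℕ, S b 0 n = ∑ i ∈ range n, b i := by
        intro n
        unfold S
        have : (Ico (0 : ℤ) n) = (range n).image (fun i : ℕ => (i : ℤ)) := by
          ext i
          simp only [mem_Ico, mem_image, mem_range]
          constructor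
          · rintro ⟨h1, h2⟩
            exact ⟨i.toNat, by omega, by omega⟩
          · rintro ⟨j, h1, rfl⟩
            omega
        rw [this, sum_image (by intro x _ y _ hxy; simpa using hxy)]
      have h5 : S b 0 l ≤ s := by
        have : l = ((l.toNat : ℕ) : ℤ) := by omega
        rw [this, h4]
        exact hsum.sum_le_tsum _ (fun i _ => (hb i).le)
      have h6 : s - b 0 < S b 0 m := by
        have : m = ((m.toNat : ℕ) : ℤ) := by omega
        rw [this, h4]
        exact hN m.toNat (by omega)
      linarith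
    obtain ⟨c, hc, hcw⟩ := hwin m0
    have hfin : ∀ m l : ℤ, 0 ≤ m → m ≤ l → S b m l ≤ (2 * K + B / c) * b m := by
      intro m l hm hml
      rcases le_or_gt (m0 : ℤ) m with h1 | h1
      · have h2 := key m l hm hml
        have h3 := hm0' m l h1 hml
        have h4 : b 0 ≤ S b 0 m := by
          have h5 : S b 0 1 = b 0 := by
            have := S_succ (b := b) (show (0 : ℤ) ≤ 0 from le_rfl)
            rw [zero_add] at this
            rw [this, S_empty le_rfl, zero_add]
          rw [← h5]
          exact S_mono hb le_rfl (by omega)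
        rw [min_eq_right (h3.trans h4)] at h2
        have : 0 ≤ B / c * b m := by
          have := hb m
          positivity
        linarith
      · have h2 := hcw m hm (by omega)
        have h3 : S b m l ≤ B := (S_mono hb (show (0 : ℤ) ≤ m from hm) le_rfl).trans (hB l (by omega))
        have h4 : B ≤ B / c * b m := by
          rw [div_mul_eq_mul_div, le_div_iff₀ hc]
          gcongr
        have : 0 ≤ 2 * K * b m := by
          have := hb m
          positivity
        linarith
    obtain ⟨C', r, h1, h2, h3, h4⟩ := exp_decay hb (by positivity) hfin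
    exact ⟨C', r, h1, h2, h3, Or.inr h4⟩
  · -- non summable case
    push Not at hbdd
    have key : ∀ m : ℤ, 0 ≤ m → S b 0 m ≤ K * (b m + b 0) := by
      intro m hm
      obtain ⟨l, hl1, hl2⟩ := hbdd (S b 0 m + K * (b m + b 0))
      have hml : m ≤ l := by
        by_contra hlt
        push Not at hlt
        have h1 := S_mono hb (show (0 : ℤ) ≤ 0 from le_rfl) hlt.le
        have h2 : 0 ≤ K * (b m + b 0) := by
          have := hb m
          have := hb 0
          positivity
        linarith
      have h3 : S b 0 m + S b m l = S b 0 l := by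
        unfold S
        rw [← sum_union]
        · congr 1
          ext i
          simp only [mem_union, mem_Ico]
          omega
        · rw [disjoint_left]
          intro i
          simp only [mem_Ico]
          omega
      have h4 := h 0 m l hm hml
      have h5 : K * (b m + min (b 0) (b l)) ≤ K * (b m + b 0) := by
        gcongr
        exact min_le_left _ _
      by_contra hlt
      push Not at hlt
      have h6 : K * (b m + b 0) < min (S b 0 m) (S b m l) := lt_min hlt (by linarith)
      linarith
    obtain ⟨m1, hm1, hm1'⟩ := hbdd (2 * K * b 0)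
    obtain ⟨c, hc, hcw⟩ := hwin m1.toNat
    set B := S b 0 m1 with hB
    have hB0 : 0 ≤ B := S_nonneg hb _ _
    have hfin : ∀ m : ℤ, 0 ≤ m → S b 0 m ≤ (2 * K + B / c) * b m := by
      intro m hm
      rcases le_or_gt m1 m with h1 | h1
      · have h2 := key m hm
        have h3 : B ≤ S b 0 m := S_mono hb le_rfl h1
        have : 0 ≤ B / c * b m := by
          have := hb m
          positivity
        linarith
      · have h2 := hcw m hm (by omega)
        have h3 : S b 0 m ≤ B := S_mono hb le_rfl h1.le
        have h4 : B ≤ B / c * b m := by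
          rw [div_mul_eq_mul_div, le_div_iff₀ hc]
          gcongr
        have : 0 ≤ 2 * K * b m := by
          have := hb m
          positivity
        linarith
    obtain ⟨C', r, h1, h2, h3, h4⟩ := exp_growth hb (by positivity) hfin
    exact ⟨C', r, h1, h2, h3, Or.inl h4⟩

/-- the star condition for the reflected sequence -/
lemma star_neg {b : ℤ → ℝ} {K W : ℝ} (hW : 0 < W)
    (hbW : ∀ n, b (n + 1) ≤ W * b n) (h : Star b K) : Star (fun n => b (-n)) (W * K) := by
  have hS : ∀ k m : ℤ, S (fun n => b (-n)) k m ≤ W * S b (-m) (-k) := by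
    intro k m
    unfold S
    have h1 : ∑ i ∈ Ico k m, b (-i) = ∑ i ∈ Ico (-m) (-k), b (i + 1) := by
      apply sum_nbij' (fun i => -i - 1) (fun i => -i - 1)
      · intro i
        simp only [mem_Ico]
        omega
      · intro i
        simp only [mem_Ico]
        omega
      · intro i _
        ring
      · intro i _
        ring
      · intro i _
        congr 1
        ring
    rw [h1, mul_sum]
    exact sum_le_sum fun i _ => hbW i
  intro k m l hkm hml
  have h1 := h (-l) (-m) (-k) (by omega) (by omega)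
  have h2 := hS k m
  have h3 := hS m l
  calc min (S (fun n => b (-n)) k m) (S (fun n => b (-n)) m l) ≤
      min (W * S b (-m) (-k)) (W * S b (-l) (-m)) := min_le_min h2 h3
    _ = W * min (S b (-l) (-m)) (S b (-m) (-k)) := by
      rw [mul_min_of_nonneg _ _ hW.le, min_comm]
    _ ≤ W * (K * (b (-m) + min (b (-l)) (b (-k)))) := by gcongr
    _ = W * K * (b (-m) + min (b (-k)) (b (-l))) := by
      rw [min_comm (b (-l))]
      ring

end Pool.Agent.V11113.PS
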