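import Pool.Agent.V11113.PS.Suff

/-!
# Periodic shadowing of bilateral weighted shifts: the characterisation
-/

set_option autoImplicit false

namespace Pool.Agent.V11113.PS

open Filter Topology

variable {𝕜 : Type} [RCLike 𝕜] {X : Type} [NormedAddCommGroup X] [NormedSpace 𝕜 X]
  [CompleteSpace X]

/-- exponential dichotomy on the right half line -/
def HD (b : ℤ → ℝ) : Prop :=
  ∃ C r : ℝ, 0 < C ∧ 0 < r ∧ r < 1 ∧
      ((∀ (n : ℤ) (s : ℕ), 0 ≤ n → b n ≤ C * r ^ s * b (n + s)) ∨
        (∀ (n : ℤ) (s : ℕ), 0 ≤ n → b (n + s) ≤ C * r ^ s * b n))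

/-- periodic sequences are bounded -/
lemma periodic_bdd {Z : Type} [NormedAddCommGroup Z] (x : ℤ → Z) (q : ℕ) (hq : 0 < q)
    (h : ∀ j : ℤ, x (j + q) = x j) : ∃ M : ℝ, ∀ j, ‖x j‖ ≤ M := by
  have h1 : ∀ (m : ℤ) (j : ℤ), x (j + m * q) = x j := by
    intro m
    induction m using Int.induction_on with
    | zero => intro j; simp
    | succ i ih =>
      intro j
      have : j + ((i : ℤ) + 1) * q = (j + i * q) + q := by ring
      rw [this, h, ih]
    | pred i ih =>
      intro j
      have h2 := h (j + (-(i : ℤ) - 1) * q)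
      have : j + (-(i : ℤ) - 1) * q + q = j + -(i : ℤ) * q := by ring
      rw [this, ih] at h2
      exact h2.symm
  refine ⟨∑ i ∈ Finset.range q, ‖x i‖, fun j => ?_⟩
  have h2 : x j = x (j % q) := by
    have h3 := h1 (j / q) (j % q)
    have h4 : j % (q : ℤ) + j / q * q = j := by
      have := Int.emod_add_mul_ediv j q
      linarith
    rw [h4] at h3
    exact h3
  have h5 : 0 ≤ j % (q : ℤ) := Int.emod_nonneg j (by omega)
  have h6 : j % (q : ℤ) < q := Int.emod_lt_of_pos j (by omega)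
  obtain ⟨i, hi⟩ : ∃ i : ℕ, j % (q : ℤ) = i := ⟨(j % (q : ℤ)).toNat, by omega⟩
  rw [h2, hi]
  exact Finset.single_le_sum (f := fun i : ℕ => ‖x i‖) (fun i _ => norm_nonneg _)
    (Finset.mem_range.2 (by omega))

namespace Setting

variable {V : ZSpace 𝕜 X} (D : Setting V)

/-- a priori bound in the first three cases -/
lemma apriori {u z : ℤ → X} {M δ : ℝ} (h : D.Sol u z M δ) {C r C' r' : ℝ} (hC : 0 < C)
    (hr0 : 0 < r) (hr1 : r < 1) (hC' : 0 < C') (hr0' : 0 < r') (hr1' : r' < 1)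
    (hR : (∀ (n : ℤ) (s : ℕ), 0 ≤ n → D.b n ≤ C * r ^ s * D.b (n + s)) ∨
        (∀ (n : ℤ) (s : ℕ), 0 ≤ n → D.b (n + s) ≤ C * r ^ s * D.b n))
    (hL : (∀ (n : ℤ) (s : ℕ), 0 ≤ n → D.b (-n) ≤ C' * r' ^ s * D.b (-(n + s))) ∨
        (∀ (n : ℤ) (s : ℕ), 0 ≤ n → D.b (-(n + s)) ≤ C' * r' ^ s * D.b (-n)))
    (hnot : (∀ j, D.Y (u j) 0 = 0) ∨
      (∀ (n : ℤ) (s : ℕ), 0 ≤ n → D.b (n + s) ≤ C * r ^ s * D.b n) ∨
      (∀ (n : ℤ) (s : ℕ), 0 ≤ n → D.b (-(n + s)) ≤ C' * r' ^ s * D.b (-n))) (j : ℤ) :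
    ‖u j‖ ≤ (C * (C' / (1 - r')) / (1 - r) + C / (1 - r) +
      (C' * (C / (1 - r)) / (1 - r') + C' / (1 - r'))) * δ := by
  have hδ : 0 ≤ δ := (norm_nonneg _).trans (h.zb 0)
  have h1r : 0 < 1 - r := by linarith
  have h1r' : 0 < 1 - r' := by linarith
  -- boundary bound
  have hbd : (∀ j, D.Y (u j) 0 = 0) → ∀ j, ‖D.Y (u j) 0‖ ≤ 0 := fun h j => by rw [h j, norm_zero]
  have hbR : (∀ (n : ℤ) (s : ℕ), 0 ≤ n → D.b (n + s) ≤ C * r ^ s * D.b n) →
      ∀ j, ‖D.Y (u j) 0‖ ≤ C * δ / (1 - r) := by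
    intro hdec j
    obtain ⟨R, h1, _, h3⟩ := h.right_dec hC hr0 hr1 hdec j
    rw [← h1 0 le_rfl]
    refine (D.norm_Y_le R 0).trans ?_
    rw [D.b0, one_mul]
    exact h3
  have hbL : (∀ (n : ℤ) (s : ℕ), 0 ≤ n → D.b (-(n + s)) ≤ C' * r' ^ s * D.b (-n)) →
      ∀ j, ‖D.Y (u j) 0‖ ≤ C' * δ / (1 - r') := by
    intro hdec j
    obtain ⟨R, h1, _, h3⟩ := h.left_dec hC' hr0' hr1' hdec j
    rw [← h1 0 le_rfl]
    refine (D.norm_Y_le R 0).trans ?_
    rw [D.b0, one_mul]
    exact h3
  -- right half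
  have hRight : ∃ R : X, (∀ n, 0 ≤ n → D.Y R n = D.Y (u j) n) ∧ (∀ n, n < 0 → D.Y R n = 0) ∧
      ‖R‖ ≤ (C * (C' / (1 - r')) / (1 - r) + C / (1 - r)) * δ := by
    by_cases hdec : (∀ (n : ℤ) (s : ℕ), 0 ≤ n → D.b (n + s) ≤ C * r ^ s * D.b n)
    · obtain ⟨R, h1, h2, h3⟩ := h.right_dec hC hr0 hr1 hdec j
      refine ⟨R, h1, h2, h3.trans ?_⟩
      have : 0 ≤ C * (C' / (1 - r')) / (1 - r) * δ := by positivity
      rw [add_mul, div_mul_eq_mul_div C]
      linarith
    · have hinc := hR.resolve_right hdec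
      have hB : ∀ j, ‖D.Y (u j) 0‖ ≤ C' * δ / (1 - r') := by
        rcases hnot with h0 | h0 | h0
        · intro j
          exact (hbd h0 j).trans (by positivity)
        · exact absurd h0 hdec
        · exact hbL h0
      obtain ⟨R, h1, h2, h3⟩ := h.right_inc hC hr0 hr1 hinc hB j
      refine ⟨R, h1, h2, h3.trans (le_of_eq ?_)⟩
      field_simp
  have hLeft : ∃ R : X, (∀ n, n ≤ 0 → D.Y R n = D.Y (u j) n) ∧ (∀ n, 0 < n → D.Y R n = 0) ∧
      ‖R‖ ≤ (C' * (C / (1 - r)) / (1 - r') + C' / (1 - r')) * δ := by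
    by_cases hdec : (∀ (n : ℤ) (s : ℕ), 0 ≤ n → D.b (-(n + s)) ≤ C' * r' ^ s * D.b (-n))
    · obtain ⟨R, h1, h2, h3⟩ := h.left_dec hC' hr0' hr1' hdec j
      refine ⟨R, h1, h2, h3.trans ?_⟩
      have : 0 ≤ C' * (C / (1 - r)) / (1 - r') * δ := by positivity
      rw [add_mul, div_mul_eq_mul_div C']
      linarith
    · have hinc := hL.resolve_right hdec
      have hB : ∀ j, ‖D.Y (u j) 0‖ ≤ C * δ / (1 - r) := by
        rcases hnot with h0 | h0 | h0
        · intro j
          exact (hbd h0 j).trans (by positivity)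
        · exact hbR h0
        · exact absurd h0 hdec
      obtain ⟨R, h1, h2, h3⟩ := h.left_inc hC' hr0' hr1' hinc hB j
      refine ⟨R, h1, h2, h3.trans (le_of_eq ?_)⟩
      field_simp
  obtain ⟨R, h1, h2, h3⟩ := hRight
  obtain ⟨L, h4, h5, h6⟩ := hLeft
  rw [add_mul]
  exact comb D h1 h2 h3 h4 h6

/-- sufficiency -/
theorem psp_of_hd (hR : HD D.b) (hL : HD (fun n => D.b (-n))) : PSP D.T := by
  obtain ⟨C, r, hC, hr0, hr1, hR⟩ := hR
  obtain ⟨C', r', hC', hr0', hr1', hL⟩ := hL
  have h1r : 0 < 1 - r := by linarith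
  have h1r' : 0 < 1 - r' := by linarith
  set K := (C * (C' / (1 - r')) / (1 - r) + C / (1 - r) +
      (C' * (C / (1 - r)) / (1 - r') + C' / (1 - r'))) with hK
  have hK0 : 0 < K := by positivity
  have hcT : ∀ x, ‖D.T x‖ ≤ ‖(D.T : X →L[𝕜] X)‖ * ‖x‖ := fun x => (D.T : X →L[𝕜] X).le_opNorm x
  intro ε hε
  refine ⟨ε / (2 * K), by positivity, ?_⟩
  rintro x ⟨q, hq, hper⟩ hx
  obtain ⟨M, hM⟩ := periodic_bdd x q hq hper
  set δ := ε / (2 * K) with hδ
  have hfin : K * δ < ε := by
    rw [hδ]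
    field_simp
    linarith
  -- the sequence z
  have hsol : ∀ u : ℤ → X, (∃ M, ∀ j, ‖u j‖ ≤ M) →
      (∀ j, D.T (u j) - u (j + 1) = D.T (x j) - x (j + 1)) →
      ∃ (z : ℤ → X) (M : ℝ), D.Sol u z M δ := by
    rintro u ⟨M, hM⟩ hu
    refine ⟨fun j => u (j + 1) - D.T (u j), M, hM, ?_, ?_⟩
    · intro j
      rw [norm_sub_rev, hu]
      exact (hx j).le
    · intro j n
      rw [D.Y_sub, D.Y_T]
      ring
  by_cases hnot : (∀ (n : ℤ) (s : ℕ), 0 ≤ n → D.b (n + s) ≤ C * r ^ s * D.b n) ∨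
      (∀ (n : ℤ) (s : ℕ), 0 ≤ n → D.b (-(n + s)) ≤ C' * r' ^ s * D.b (-n))
  · -- the orbit of zero shadows
    obtain ⟨z, M, hs⟩ := hsol x ⟨M, hM⟩ (fun j => rfl)
    refine ⟨0, ⟨1, one_pos, by rw [map_zero]⟩, fun j => ?_⟩
    rw [map_zero, sub_zero]
    exact (D.apriori hs hC hr0 hr1 hC' hr0' hr1' hR hL (Or.inr hnot) j).trans_lt hfin
  · push Not at hnot
    have hRi : ∀ (n : ℤ) (s : ℕ), 0 ≤ n → D.b n ≤ C * r ^ s * D.b (n + s) := by
      rcases hR with h | h
      · exact h
      · obtain ⟨n, s, h1, h2⟩ := hnot.1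
        exact absurd (h n s h1) (not_le.2 h2)
    have hLi : ∀ (n : ℤ) (s : ℕ), 0 ≤ n → D.b (-n) ≤ C' * r' ^ s * D.b (-(n + s)) := by
      rcases hL with h | h
      · exact h
      · obtain ⟨n, s, h1, h2⟩ := hnot.2
        exact absurd (h n s h1) (not_le.2 h2)
    -- the periodic point
    have hM0 : 0 ≤ M := (norm_nonneg _).trans (hM 0)
    have hYb : ∀ j, ‖D.Y (x j) 0‖ ≤ M := by
      intro j
      refine (D.norm_Y_le _ 0).trans ?_
      rw [D.b0, one_mul]
      exact hM j
    have hsum : Summable (fun n : ℤ => ‖(D.c n)⁻¹ * D.Y (x n) 0‖) := by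
      apply Summable.of_nat_of_neg
      · apply Summable.of_nonneg_of_le (fun n => norm_nonneg _) (f := fun n : ℕ => C * M * r ^ n)
        · intro n
          rw [norm_mul, norm_inv]
          have h3 := hRi 0 n le_rfl
          rw [D.b0, zero_add] at h3
          have h4 := D.b_pos n
          have h5 : (D.b n)⁻¹ ≤ C * r ^ n := by
            rw [inv_le_iff_one_le_mul₀ h4]
            exact h3
          calc (D.b n)⁻¹ * ‖D.Y (x n) 0‖ ≤ (C * r ^ n) * M := by
                gcongr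
                exact hYb _
            _ = _ := by ring
        · exact (summable_geometric_of_lt_one hr0.le hr1).mul_left _
      · apply Summable.of_nonneg_of_le (fun n => norm_nonneg _) (f := fun n : ℕ => C' * M * r' ^ n)
        · intro n
          rw [norm_mul, norm_inv]
          have h3 := hLi 0 n le_rfl
          rw [neg_zero, D.b0, zero_add] at h3
          have h4 := D.b_pos (-(n : ℤ))
          have h5 : (D.b (-(n : ℤ)))⁻¹ ≤ C' * r' ^ n := by
            rw [inv_le_iff_one_le_mul₀ h4]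
            exact h3
          calc (D.b (-(n : ℤ)))⁻¹ * ‖D.Y (x (-(n : ℤ))) 0‖ ≤ (C' * r' ^ n) * M := by
                gcongr
                exact hYb _
            _ = _ := by ring
        · exact (summable_geometric_of_lt_one hr0'.le hr1').mul_left _
    obtain ⟨p, hp, _⟩ := exists_of_summable V _ hsum
    have hYp : ∀ n, D.Y p n = D.Y (x n) 0 := by
      intro n
      have : D.Y p n = D.c n * ((D.c n)⁻¹ * D.Y (x n) 0) := by
        unfold Y
        rw [hp]
        rfl
      rw [this, ← mul_assoc, mul_inv_cancel₀ (D.hc n), one_mul]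
    have hTq : ∀ j : ℤ, (D.T ^ (j + (q : ℤ))) p = (D.T ^ j) p := by
      intro j
      apply D.Y_inj
      intro n
      rw [D.Y_zpow, D.Y_zpow, hYp, hYp, ← add_assoc, hper]
    have hTp : (D.T ^ q) p = p := by
      have := hTq 0
      rw [zero_add, zpow_zero, zpow_natCast] at this
      exact this
    obtain ⟨M', hM'⟩ := periodic_bdd (fun j : ℤ => (D.T ^ j) p) q hq hTq
    set u : ℤ → X := fun j => x j - (D.T ^ j) p with hu
    obtain ⟨z, M'', hs⟩ := hsol u ⟨M + M', fun j => by
      rw [hu]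
      exact (norm_sub_le _ _).trans (add_le_add (hM j) (hM' j))⟩ (fun j => by
        rw [hu]
        simp only
        have h1 : (D.T ^ (j + 1)) p = D.T ((D.T ^ j) p) := by
          rw [add_comm, zpow_add, zpow_one]
          rfl
        rw [h1, map_sub]
        abel)
    refine ⟨p, ⟨q, hq, hTp⟩, fun j => ?_⟩
    exact (D.apriori hs hC hr0 hr1 hC' hr0' hr1' hR hL (Or.inl (fun j => by
      rw [hu]
      simp only
      rw [D.Y_sub, D.Y_zpow, hYp, zero_add, sub_self])) j).trans_lt hfin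

/-- necessity -/
theorem star_of_psp (h : PSP D.T) : ∃ K : ℝ, 0 < K ∧ Star D.b K := by
  classical
  obtain ⟨δ, hδ, h⟩ := h 1 one_pos
  refine ⟨2 / δ, by positivity, ?_⟩
  intro k m l hkm hml
  set v : ℤ → ℝ := fun n => δ / 2 * min (S D.b k n) (S D.b n l) with hv
  have hv0 : ∀ n, n ≤ k → v n = 0 := by
    intro n hn
    rw [hv]
    simp only
    rw [S_empty hn, min_eq_left (S_nonneg D.b_pos _ _), mul_zero]
  have hv1 : ∀ n, l ≤ n → v n = 0 := by
    intro n hn
    rw [hv]
    simp only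
    rw [S_empty (k := n) hn, min_eq_right (S_nonneg D.b_pos _ _), mul_zero]
  have hinc : ∀ n, |v (n + 1) - v n| ≤ δ / 2 * D.b n := by
    intro n
    have hbn := D.b_pos n
    rcases lt_or_ge n k with h1 | h1
    · rw [hv0 n h1.le, hv0 (n + 1) (by omega), sub_self, abs_zero]
      positivity
    · rcases lt_or_ge n l with h2 | h2
      · rw [hv]
        simp only
        rw [← mul_sub, abs_mul, abs_of_pos (by positivity : 0 < δ / 2)]
        gcongr
        refine (abs_min_sub_min_le_max _ _ _ _).trans ?_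
        rw [S_succ h1, S_pred h2]
        apply max_le
        · rw [add_sub_cancel_left, abs_of_pos hbn]
        · rw [sub_add_cancel_right, abs_neg, abs_of_pos hbn]
      · rw [hv1 n h2, hv1 (n + 1) (by omega), sub_self, abs_zero]
        positivity
  set q : ℕ := (l - k).toNat + 1 with hq
  have hex : ∀ j : ℤ, ∃ x : X, ∀ n, V.co x n =
      if (q : ℤ) ∣ (n + j) then ((v n : ℝ) : 𝕜) * (D.c n)⁻¹ else 0 := by
    intro j
    obtain ⟨y, hy, _⟩ := exists_of_summable V
      (fun n => if (q : ℤ) ∣ (n + j) then ((v n : ℝ) : 𝕜) * (D.c n)⁻¹ else 0)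
      (summable_of_ne_finset_zero (s := Finset.Ioo k l) (fun n hn => by
        have h1 : v n = 0 := by
          rw [Finset.mem_Ioo] at hn
          rcases le_or_gt n k with h2 | h2
          · exact hv0 n h2
          · exact hv1 n (by by_contra h3; exact hn ⟨h2, by omega⟩)
        rw [h1]
        simp))
    exact ⟨y, fun n => congrFun hy n⟩
  choose x hx using hex
  have hper : ∀ j : ℤ, x (j + q) = x j := by
    intro j
    apply V.inj
    funext n
    rw [hx, hx]
    have : (q : ℤ) ∣ (n + (j + q)) ↔ (q : ℤ) ∣ (n + j) := by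
      rw [← add_assoc]
      exact dvd_add_self_right
    simp only [this]
  have hpt : ∀ j : ℤ, ‖D.T (x j) - x (j + 1)‖ < δ := by
    intro j
    have hco : ∀ n, V.co (D.T (x j) - x (j + 1)) n =
        if (q : ℤ) ∣ (n + 1 + j) then ((v (n + 1) - v n : ℝ) : 𝕜) * (D.c n)⁻¹ else 0 := by
      intro n
      rw [map_sub, Pi.sub_apply, D.hT, hx, hx]
      have e1 : n + (j + 1) = n + 1 + j := by ring
      rw [e1]
      split_ifs with hd
      · rw [D.cs]
        have h1 := D.hc n
        have h2 : D.w (n + 1) ≠ 0 := by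
          intro h0
          have := D.hc (n + 1)
          rw [D.cs, h0, zero_mul] at this
          exact this rfl
        push_cast
        rw [mul_inv]
        field_simp
      · simp
    by_cases hn0 : ∃ n0 : ℤ, k ≤ n0 ∧ n0 < l ∧ (q : ℤ) ∣ (n0 + 1 + j)
    · obtain ⟨n0, h1, h2, h3⟩ := hn0
      have heq : D.T (x j) - x (j + 1) = (((v (n0 + 1) - v n0 : ℝ) : 𝕜) * (D.c n0)⁻¹) • V.e n0 := by
        apply V.inj
        funext n
        rw [hco, map_smul, Pi.smul_apply, V.co_e, smul_eq_mul]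
        by_cases hn : n = n0
        · subst hn
          rw [if_pos h3, Pi.single_eq_same, mul_one]
        · rw [Pi.single_eq_of_ne hn, mul_zero]
          split_ifs with hd
          · have h4 : v (n + 1) - v n = 0 := by
              rcases lt_or_ge n k with h5 | h5
              · rw [hv0 n h5.le, hv0 (n + 1) (by omega), sub_self]
              · rcases lt_or_ge n l with h6 | h6
                · exfalso
                  apply hn
                  have h7 : (q : ℤ) ∣ (n - n0) := by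
                    have := dvd_sub hd h3
                    have e : n + 1 + j - (n0 + 1 + j) = n - n0 := by ring
                    rwa [e] at this
                  have h8 : |n - n0| < q := by
                    rw [abs_lt]
                    constructor <;> omega
                  have h9 := Int.eq_zero_of_abs_lt_dvd h7 h8
                  omega
                · rw [hv1 n h6, hv1 (n + 1) (by omega), sub_self]
            rw [h4]
            simp
          · rfl
      rw [heq, norm_smul, norm_mul, norm_inv, RCLike.norm_ofReal]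
      have h4 := hinc n0
      have h5 := D.b_pos n0
      have h6 := V.norm_e n0
      have h7 : |v (n0 + 1) - v n0| * ‖D.c n0‖⁻¹ ≤ δ / 2 := by
        unfold b at h4 h5
        rw [← div_eq_mul_inv, div_le_iff₀ h5]
        exact h4
      calc |v (n0 + 1) - v n0| * ‖D.c n0‖⁻¹ * ‖V.e n0‖ ≤ δ / 2 * 1 := by gcongr
        _ < δ := by linarith
    · have heq : D.T (x j) - x (j + 1) = 0 := by
        apply V.inj
        funext n
        rw [hco, map_zero, Pi.zero_apply]
        split_ifs with hd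
        · have h4 : v (n + 1) - v n = 0 := by
            rcases lt_or_ge n k with h5 | h5
            · rw [hv0 n h5.le, hv0 (n + 1) (by omega), sub_self]
            · rcases lt_or_ge n l with h6 | h6
              · exact absurd ⟨n, h5, h6, hd⟩ hn0
              · rw [hv1 n h6, hv1 (n + 1) (by omega), sub_self]
          rw [h4]
          simp
        · rfl
      rw [heq, norm_zero]
      exact hδ
  obtain ⟨y, _, hy⟩ := h x ⟨q, by omega, hper⟩ hpt
  set y0 : 𝕜 := D.Y y 0 with hy0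
  have key : ∀ n, ‖((v n : ℝ) : 𝕜) - y0‖ ≤ D.b n := by
    intro n
    have h1 := hy (-n)
    have h2 : D.Y (x (-n) - (D.T ^ (-n)) y) n = ((v n : ℝ) : 𝕜) - y0 := by
      rw [D.Y_sub, D.Y_zpow, add_neg_cancel]
      congr 1
      unfold Y
      rw [hx, if_pos (by rw [add_neg_cancel]; exact dvd_zero _)]
      have := D.hc n
      field_simp
    rw [← h2]
    refine (D.norm_Y_le _ n).trans ?_
    have := D.b_pos n
    nlinarith
  have hk := key k
  rw [hv0 k le_rfl] at hk
  have hl := key l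
  rw [hv1 l le_rfl] at hl
  have hm := key m
  rw [RCLike.ofReal_zero, zero_sub, norm_neg] at hk hl
  have hvm : |v m| ≤ D.b m + ‖y0‖ := by
    have h1 : ‖((v m : ℝ) : 𝕜)‖ ≤ ‖((v m : ℝ) : 𝕜) - y0‖ + ‖y0‖ := by
      calc ‖((v m : ℝ) : 𝕜)‖ = ‖(((v m : ℝ) : 𝕜) - y0) + y0‖ := by rw [sub_add_cancel]
        _ ≤ _ := norm_add_le _ _
    rw [RCLike.norm_ofReal] at h1
    linarith
  have h1 : δ / 2 * min (S D.b k m) (S D.b m l) ≤ D.b m + min (D.b k) (D.b l) := by
    have h2 : ‖y0‖ ≤ min (D.b k) (D.b l) := le_min hk hl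
    have h3 := le_abs_self (v m)
    have h4 : v m = δ / 2 * min (S D.b k m) (S D.b m l) := rfl
    linarith
  have h5 : min (S D.b k m) (S D.b m l) = 2 / δ * (δ / 2 * min (S D.b k m) (S D.b m l)) := by
    field_simp
  rw [h5]
  gcongr

/-- **Characterisation of the periodic shadowing property.** -/
theorem psp_iff : PSP D.T ↔ HD D.b ∧ HD (fun n => D.b (-n)) := by
  constructor
  · intro h
    obtain ⟨K, hK, hS⟩ := D.star_of_psp h
    refine ⟨dichotomy D.b_pos hK hS, ?_⟩
    exact dichotomy (fun n => D.b_pos (-n)) (mul_pos D.W_pos hK) (star_neg D.W_pos D.b_succ_le hS)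
  · rintro ⟨h1, h2⟩
    exact D.psp_of_hd h1 h2

end Setting

omit [CompleteSpace X] in
/-- the products have the same absolute values -/
lemma b_unique {Y : Type} [NormedAddCommGroup Y] [NormedSpace 𝕜 Y] {V : ZSpace 𝕜 X}
    {V' : ZSpace 𝕜 Y} (D : Setting V) (D' : Setting V') (h : D.w = D'.w) : D.b = D'.b := by
  have key : ∀ n, D.c n = D'.c n := by
    intro n
    induction n using Int.induction_on with
    | zero => rw [D.c0, D'.c0]
    | succ i ih => rw [D.cs, D'.cs, ih, h]
    | pred i ih =>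
      have h1 := D.cs (-(i : ℤ) - 1)
      have h2 := D'.cs (-(i : ℤ) - 1)
      rw [sub_add_cancel] at h1 h2
      have h3 : D'.w (-(i : ℤ)) ≠ 0 := by
        intro h0
        apply D'.hc (-(i : ℤ))
        rw [h2, h0, zero_mul]
      rw [ih, h2, h] at h1
      exact (mul_left_cancel₀ h3 h1).symm
  funext n
  unfold Setting.b
  rw [key]

end Pool.Agent.V11113.PS
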