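import Pool.Agent.V11113.PS.Abs

/-!
# Periodic shadowing of bilateral weighted shifts: sufficiency of the dichotomies
-/

set_option autoImplicit false

namespace Pool.Agent.V11113.PS

open Filter Topology

variable {𝕜 : Type} [RCLike 𝕜] {X : Type} [NormedAddCommGroup X] [NormedSpace 𝕜 X]
  [CompleteSpace X]

namespace Setting

variable {V : ZSpace 𝕜 X} {D : Setting V}

/-- finitely supported vectors with prescribed coordinates -/
lemma exists_fin (D : Setting V) (s : Finset ℤ) (g : ℤ → 𝕜) : ∃ y : X, (∀ n ∈ s, D.Y y n = g n) ∧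
    (∀ n, n ∉ s → D.Y y n = 0) ∧ ‖y‖ ≤ ∑ n ∈ s, ‖g n‖ / D.b n := by
  classical
  set f : ℤ → 𝕜 := fun n => if n ∈ s then (D.c n)⁻¹ * g n else 0 with hf
  have h1 : ∀ n, n ∉ s → ‖f n‖ = 0 := fun n hn => by rw [hf]; simp only [if_neg hn, norm_zero]
  obtain ⟨y, hy1, hy2⟩ := exists_of_summable V f (summable_of_ne_finset_zero h1)
  refine ⟨y, ?_, ?_, ?_⟩
  · intro n hn
    unfold Y
    rw [hy1, hf]
    simp only [if_pos hn]
    rw [← mul_assoc, mul_inv_cancel₀ (D.hc n), one_mul]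
  · intro n hn
    unfold Y
    rw [hy1, hf]
    simp only [if_neg hn, mul_zero]
  · refine hy2.trans (le_of_eq ?_)
    rw [tsum_eq_sum h1]
    refine Finset.sum_congr rfl fun n hn => ?_
    rw [hf]
    simp only [if_pos hn]
    rw [norm_mul, norm_inv]
    unfold b
    rw [div_eq_inv_mul]

/-- growth on the right, with boundary values -/
lemma Sol.right_inc {u z : ℤ → X} {M δ C r B : ℝ} (h : D.Sol u z M δ) (hC : 0 < C) (hr0 : 0 < r)
    (hr1 : r < 1) (hb : ∀ (n : ℤ) (s : ℕ), 0 ≤ n → D.b n ≤ C * r ^ s * D.b (n + s))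
    (hB : ∀ j, ‖D.Y (u j) 0‖ ≤ B) (j : ℤ) :
    ∃ R : X, (∀ n, 0 ≤ n → D.Y R n = D.Y (u j) n) ∧ (∀ n, n < 0 → D.Y R n = 0) ∧
      ‖R‖ ≤ C * B / (1 - r) + C * δ / (1 - r) := by
  have hδ : 0 ≤ δ := (norm_nonneg _).trans (h.zb 0)
  have hB0 : 0 ≤ B := (norm_nonneg _).trans (hB 0)
  have hb' : ∀ (n : ℤ) (s : ℕ), (s : ℤ) ≤ n → D.b (n - s) ≤ C * r ^ s * D.b n := by
    intro n s hn
    have := hb (n - s) s (by omega)
    rwa [sub_add_cancel] at this
  obtain ⟨R, hR1, hR2, _⟩ := D.exists_sh {n | 0 ≤ n} 0 1 zero_le_one (fun n _ => by simp) (u j)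
  refine ⟨R, fun n hn => by rw [hR1 n hn, add_zero], fun n hn => hR2 n (by simpa using hn), ?_⟩
  apply limit_bound hr0 hr1 (C := C) (M := M)
  intro N
  obtain ⟨A, hA1, hA2, hA3⟩ := D.exists_sh {n | (N : ℤ) ≤ n} (-N) (C * r ^ N) (by positivity)
    (fun n hn => hb' n N hn) (u (j + N))
  obtain ⟨G, hG1, hG2, hG3⟩ := D.exists_fin (Finset.Ico 0 (N : ℤ)) (fun n => D.Y (u (j + n)) 0)
  have hex := fun s : ℕ => D.exists_sh {n | (s : ℤ) + 1 ≤ n} (-1 - s) (C * r ^ s) (by positivity)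
    (fun n hn => by
      have hn' : (s : ℤ) + 1 ≤ n := hn
      have h1 := hb' n (s + 1) (by push_cast; exact hn')
      have h2 : n + (-1 - (s : ℤ)) = n - ((s + 1 : ℕ) : ℤ) := by push_cast; ring
      rw [h2]
      refine h1.trans ?_
      have := D.b_pos n
      have h3 : r ^ (s + 1) ≤ r ^ s := pow_le_pow_of_le_one hr0.le hr1.le (by omega)
      gcongr) (z (j + s))
  choose F hF1 hF2 hF3 using hex
  have hRA : R = A + G - ∑ s ∈ Finset.range N, F s := by
    apply D.Y_inj
    intro n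
    rw [D.Y_sub, D.Y_add, D.Y_sum]
    rcases lt_or_ge n 0 with hn | hn
    · rw [hR2 n (by simpa using hn), hA2 n (by simp; omega), hG2 n (by simp; omega), add_zero,
        zero_sub, Finset.sum_eq_zero fun s _ => hF2 s n (by simp; omega), neg_zero]
    · rcases lt_or_ge n N with hnN | hnN
      · rw [hR1 n hn, add_zero, hA2 n (by simp; omega), hG1 n (by simp; omega), zero_add]
        obtain ⟨m, rfl⟩ : ∃ m : ℕ, n = m := ⟨n.toNat, by omega⟩
        rw [h.bwd m j m, sub_self]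
        congr 1
        have hmN : m ≤ N := by omega
        rw [← Finset.sum_subset (Finset.range_mono hmN) (f := fun s => D.Y (F s) (m : ℤ))]
        · refine Finset.sum_congr rfl fun s hs => ?_
          rw [Finset.mem_range] at hs
          rw [hF1 s _ (by simp; omega)]
          congr 1
          ring
        · intro s _ hs
          rw [Finset.mem_range] at hs
          exact hF2 s _ (by simp; omega)
      · rw [hR1 n hn, add_zero, h.bwd N j n, hA1 n hnN, hG2 n (by simp; omega), add_zero]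
        congr 1
        refine Finset.sum_congr rfl fun s hs => ?_
        rw [Finset.mem_range] at hs
        rw [hF1 s n (by simp; omega)]
        congr 1
        ring
  rw [hRA]
  have hG4 : ‖G‖ ≤ C * B / (1 - r) := by
    refine hG3.trans ?_
    have h1 : ∑ n ∈ Finset.Ico 0 (N : ℤ), ‖D.Y (u (j + n)) 0‖ / D.b n ≤
        ∑ s ∈ Finset.range N, C * r ^ s * B := by
      have h2 : (Finset.Ico (0 : ℤ) N) = (Finset.range N).image (fun i : ℕ => (i : ℤ)) := by
        ext i
        simp only [Finset.mem_Ico, Finset.mem_image, Finset.mem_range]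
        constructor
        · rintro ⟨h1, h2⟩
          exact ⟨i.toNat, by omega, by omega⟩
        · rintro ⟨j, h1, rfl⟩
          omega
      rw [h2, Finset.sum_image (by intro x _ y _ hxy; simpa using hxy)]
      refine Finset.sum_le_sum fun s _ => ?_
      have h3 := hb 0 s le_rfl
      rw [D.b0, zero_add] at h3
      have h4 := D.b_pos s
      rw [div_le_iff₀ h4]
      have h5 := hB (j + s)
      calc ‖D.Y (u (j + s)) 0‖ ≤ B * 1 := by rw [mul_one]; exact h5
        _ ≤ B * (C * r ^ s * D.b s) := by gcongr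
        _ = _ := by ring
    exact h1.trans (geom_bound hC.le hr0 hr1 hB0 N)
  have hF4 : ‖∑ s ∈ Finset.range N, F s‖ ≤ C * δ / (1 - r) := by
    refine (norm_sum_le _ _).trans ((Finset.sum_le_sum fun s _ => ?_).trans
      (geom_bound hC.le hr0 hr1 hδ N))
    exact (hF3 s).trans (by have := h.zb (j + s); gcongr)
  have hA4 : ‖A‖ ≤ C * r ^ N * M := hA3.trans (by have := h.bdd (j + N); gcongr)
  calc ‖A + G - ∑ s ∈ Finset.range N, F s‖ ≤ ‖A + G‖ + ‖∑ s ∈ Finset.range N, F s‖ :=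
        norm_sub_le _ _
    _ ≤ (‖A‖ + ‖G‖) + ‖∑ s ∈ Finset.range N, F s‖ := by gcongr; exact norm_add_le _ _
    _ ≤ _ := by linarith

/-- growth on the left, with boundary values -/
lemma Sol.left_inc {u z : ℤ → X} {M δ C r B : ℝ} (h : D.Sol u z M δ) (hC : 0 < C) (hr0 : 0 < r)
    (hr1 : r < 1) (hb : ∀ (n : ℤ) (s : ℕ), 0 ≤ n → D.b (-n) ≤ C * r ^ s * D.b (-(n + s)))
    (hB : ∀ j, ‖D.Y (u j) 0‖ ≤ B) (j : ℤ) :
    ∃ R : X, (∀ n, n ≤ 0 → D.Y R n = D.Y (u j) n) ∧ (∀ n, 0 < n → D.Y R n = 0) ∧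
      ‖R‖ ≤ C * B / (1 - r) + C * δ / (1 - r) := by
  have hδ : 0 ≤ δ := (norm_nonneg _).trans (h.zb 0)
  have hB0 : 0 ≤ B := (norm_nonneg _).trans (hB 0)
  have hb' : ∀ (n : ℤ) (s : ℕ), n ≤ -(s : ℤ) → D.b (n + s) ≤ C * r ^ s * D.b n := by
    intro n s hn
    have := hb (-(n + s)) s (by omega)
    rwa [neg_neg, show -(-(n + (s : ℤ)) + s) = n by ring] at this
  obtain ⟨R, hR1, hR2, _⟩ := D.exists_sh {n | n ≤ 0} 0 1 zero_le_one (fun n _ => by simp) (u j)
  refine ⟨R, fun n hn => by rw [hR1 n hn, add_zero], fun n hn => hR2 n (by simpa using hn), ?_⟩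
  apply limit_bound hr0 hr1 (C := C) (M := M)
  intro N
  obtain ⟨A, hA1, hA2, hA3⟩ := D.exists_sh {n | n ≤ -(N : ℤ)} N (C * r ^ N) (by positivity)
    (fun n hn => hb' n N hn) (u (j - N))
  obtain ⟨G, hG1, hG2, hG3⟩ := D.exists_fin (Finset.Ioc (-(N : ℤ)) 0) (fun n => D.Y (u (j + n)) 0)
  have hex := fun s : ℕ => D.exists_sh {n | n ≤ -(s : ℤ) - 1} s (C * r ^ s) (by positivity)
    (fun n hn => by
      have hn' : n ≤ -(s : ℤ) - 1 := hn
      exact hb' n s (by omega)) (z (j - 1 - s))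
  choose F hF1 hF2 hF3 using hex
  have hRA : R = A + G + ∑ s ∈ Finset.range N, F s := by
    apply D.Y_inj
    intro n
    rw [D.Y_add, D.Y_add, D.Y_sum]
    rcases lt_or_ge 0 n with hn | hn
    · rw [hR2 n (by simpa using hn), hA2 n (by simp; omega), hG2 n (by simp; omega), add_zero,
        zero_add, Finset.sum_eq_zero fun s _ => hF2 s n (by simp; omega)]
    · rcases lt_or_ge (-(N : ℤ)) n with hnN | hnN
      · rw [hR1 n hn, add_zero, hA2 n (by simp; omega), hG1 n (by simp; omega), zero_add]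
        obtain ⟨m, rfl⟩ : ∃ m : ℕ, n = -m := ⟨(-n).toNat, by omega⟩
        rw [h.fwd m j (-m), neg_add_cancel]
        have e1 : j + -(m : ℤ) = j - m := by ring
        rw [e1]
        congr 1
        have hmN : m ≤ N := by omega
        rw [← Finset.sum_subset (Finset.range_mono hmN) (f := fun s => D.Y (F s) (-(m : ℤ)))]
        · refine Finset.sum_congr rfl fun s hs => ?_
          rw [Finset.mem_range] at hs
          rw [hF1 s _ (by simp; omega)]
        · intro s _ hs
          rw [Finset.mem_range] at hs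
          exact hF2 s _ (by simp; omega)
      · rw [hR1 n hn, add_zero, h.fwd N j n, hA1 n hnN, hG2 n (by simp; omega), add_zero]
        congr 1
        refine Finset.sum_congr rfl fun s hs => ?_
        rw [Finset.mem_range] at hs
        rw [hF1 s n (by simp; omega)]
  rw [hRA]
  have hG4 : ‖G‖ ≤ C * B / (1 - r) := by
    refine hG3.trans ?_
    have h1 : ∑ n ∈ Finset.Ioc (-(N : ℤ)) 0, ‖D.Y (u (j + n)) 0‖ / D.b n ≤
        ∑ s ∈ Finset.range N, C * r ^ s * B := by
      have h2 : (Finset.Ioc (-(N : ℤ)) 0) = (Finset.range N).image (fun i : ℕ => -(i : ℤ)) := by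
        ext i
        simp only [Finset.mem_Ioc, Finset.mem_image, Finset.mem_range]
        constructor
        · rintro ⟨h1, h2⟩
          exact ⟨(-i).toNat, by omega, by omega⟩
        · rintro ⟨j, h1, rfl⟩
          omega
      rw [h2, Finset.sum_image (by intro x _ y _ hxy; simpa using hxy)]
      refine Finset.sum_le_sum fun s _ => ?_
      have h3 := hb 0 s le_rfl
      rw [neg_zero, D.b0, zero_add] at h3
      have h4 := D.b_pos (-(s : ℤ))
      rw [div_le_iff₀ h4]
      have h5 := hB (j + -s)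
      calc ‖D.Y (u (j + -s)) 0‖ ≤ B * 1 := by rw [mul_one]; exact h5
        _ ≤ B * (C * r ^ s * D.b (-(s : ℤ))) := by gcongr
        _ = _ := by ring
    exact h1.trans (geom_bound hC.le hr0 hr1 hB0 N)
  have hF4 : ‖∑ s ∈ Finset.range N, F s‖ ≤ C * δ / (1 - r) := by
    refine (norm_sum_le _ _).trans ((Finset.sum_le_sum fun s _ => ?_).trans
      (geom_bound hC.le hr0 hr1 hδ N))
    exact (hF3 s).trans (by have := h.zb (j - 1 - s); gcongr)
  have hA4 : ‖A‖ ≤ C * r ^ N * M := hA3.trans (by have := h.bdd (j - N); gcongr)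
  calc ‖A + G + ∑ s ∈ Finset.range N, F s‖ ≤ ‖A + G‖ + ‖∑ s ∈ Finset.range N, F s‖ :=
        norm_add_le _ _
    _ ≤ (‖A‖ + ‖G‖) + ‖∑ s ∈ Finset.range N, F s‖ := by gcongr; exact norm_add_le _ _
    _ ≤ _ := by linarith

omit [CompleteSpace X] in
/-- combination of the two halves -/
lemma comb (D : Setting V) {u R L : X} {K K' : ℝ} (hR : ∀ n, 0 ≤ n → D.Y R n = D.Y u n)
    (hR' : ∀ n, n < 0 → D.Y R n = 0) (hRn : ‖R‖ ≤ K) (hL : ∀ n, n ≤ 0 → D.Y L n = D.Y u n)
    (hLn : ‖L‖ ≤ K') : ‖u‖ ≤ K + K' := by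
  obtain ⟨L', h1, h2, h3⟩ := D.exists_sh {n | n < 0} 0 1 zero_le_one (fun n _ => by simp) L
  have : u = R + L' := by
    apply D.Y_inj
    intro n
    rw [D.Y_add]
    rcases lt_or_ge n 0 with hn | hn
    · rw [hR' n hn, h1 n hn, add_zero, hL n hn.le, zero_add]
    · rw [hR n hn, h2 n (by simpa using hn), add_zero]
  rw [this]
  refine (norm_add_le _ _).trans ?_
  linarith

end Setting

end Pool.Agent.V11113.PS
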